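import Mathlib

namespace Pool.Agent.H.MP_f21612_lc

open Set Filter Cardinal

/-- Boolean combination -/
def cell {K : Type} (G : K → Set ℕ) (s t : Finset K) : Set ℕ :=
  {n | (∀ a ∈ s, n ∈ G a) ∧ ∀ a ∈ t, n ∉ G a}

theorem cell_mono {K : Type} (G : K → Set ℕ) {s t s' t' : Finset K} (hs : s ⊆ s') (ht : t ⊆ t') :
    cell G s' t' ⊆ cell G s t :=
  fun _ hn => ⟨fun a ha => hn.1 a (hs ha), fun a ha => hn.2 a (ht ha)⟩

theorem indep_exists (K : Type) (ι : K → Set ℕ) (hι : Function.Injective ι) :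
    ∃ G : K → Set ℕ, ∀ s t : Finset K, Disjoint s t → (cell G s t).Infinite := by
  classical
  let e : ℕ ≃ ℕ × Finset (Finset ℕ) := (Denumerable.eqv _).symm
  let tr : ℕ → K → Finset ℕ := fun n a => (Finset.range n).filter (· ∈ ι a)
  refine ⟨fun a => {m | tr (e m).1 a ∈ (e m).2}, fun s t hst => ?_⟩
  have hsep : ∀ a b : K, a ≠ b → ∀ᶠ n in atTop, tr n a ≠ tr n b := by
    intro a b hab
    have : ∃ k, ¬ (k ∈ ι a ↔ k ∈ ι b) := by
      by_contra h
      push Not at h
      exact hab (hι (Set.ext h))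
    obtain ⟨k, hk⟩ := this
    filter_upwards [eventually_gt_atTop k] with n hn h
    apply hk
    have := Finset.ext_iff.1 h k
    simpa [tr, hn] using this
  have hall : ∀ᶠ n in atTop, ∀ a ∈ s, ∀ b ∈ t, tr n a ≠ tr n b := by
    rw [eventually_all_finset]
    intro a ha
    rw [eventually_all_finset]
    intro b hb
    exact hsep a b (fun h => Finset.disjoint_left.1 hst ha (h ▸ hb))
  obtain ⟨N, hN⟩ := eventually_atTop.1 hall
  refine infinite_of_injective_forall_mem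
    (f := fun n : ℕ => e.symm (n + N, s.image (tr (n + N)))) ?_ ?_
  · intro n m h
    have := congrArg Prod.fst (e.symm.injective h)
    simpa using this
  · intro n
    constructor
    · intro a ha
      simp only [mem_ofPred_eq, Equiv.apply_symm_apply]
      exact Finset.mem_image_of_mem _ ha
    · intro b hb
      simp only [mem_ofPred_eq, Equiv.apply_symm_apply, Finset.mem_image, not_exists, not_and]
      intro a ha
      exact hN (n + N) (by omega) a ha b hb

theorem closure_exists {W : Type} (f : Finset W → Set W) (hf : ∀ u, (f u).Countable) :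
    ∃ C : Set W, C.Countable ∧ ∀ u : Finset W, (u : Set W) ⊆ C → f u ⊆ C := by
  let step : Set W → Set W := fun C => C ∪ ⋃ u ∈ {u : Finset W | (u : Set W) ⊆ C}, f u
  have hstep : ∀ C, C.Countable → (step C).Countable := by
    intro C hC
    refine hC.union (Countable.biUnion ?_ fun u _ => hf u)
    refine ((countable_setOf_finite_subset hC).preimage_of_injOn
      (f := fun u : Finset W => (u : Set W)) Finset.coe_injective.injOn).mono ?_
    intro u hu
    exact ⟨u.finite_toSet, hu⟩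
  let c : ℕ → Set W := fun n => step^[n] ∅
  have hc : ∀ n, c (n + 1) = step (c n) := fun n => Function.iterate_succ_apply' _ _ _
  have hmono : Monotone c := monotone_nat_of_le_succ fun n => by
    rw [hc]; exact subset_union_left
  refine ⟨⋃ n, c n, countable_iUnion fun n => ?_, fun u hu => ?_⟩
  · induction n with
    | zero => exact countable_empty
    | succ n ih => rw [hc]; exact hstep _ ih
  · obtain ⟨n, hn⟩ : ∃ n, (u : Set W) ⊆ c n :=
      (hmono.directed_le).exists_mem_subset_of_finset_subset_biUnion hu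
    refine Subset.trans ?_ (subset_iUnion c (n + 1))
    rw [hc]
    exact Subset.trans (subset_biUnion_of_mem (u := f) hn) subset_union_right

/-- the filter keeps the family independent -/
def Good {W : Type} (G : W → Set ℕ) (F : Filter ℕ) : Prop :=
  ∀ s t : Finset W, Disjoint s t → ∀ Y ∈ F, (cell G s t ∩ Y).Nonempty

theorem exists_minimal {W : Type} (G : W → Set ℕ) (F₀ : Filter ℕ) (h : Good G F₀) :
    ∃ F ≤ F₀, Good G F ∧ ∀ Z, (∀ s t : Finset W, Disjoint s t → ∀ Y ∈ F,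
      (cell G s t ∩ (Y ∩ Z)).Nonempty) → Z ∈ F := by
  obtain ⟨F, hF, hmax⟩ := zorn_le_nonempty₀ (α := (Filter ℕ)ᵒᵈ) {F | Good G (OrderDual.ofDual F)}
    (fun c hc hchain y hy => by
      haveI : Nonempty c := ⟨⟨y, hy⟩⟩
      refine ⟨OrderDual.toDual (⨅ F : c, OrderDual.ofDual F.1), ?_, fun z hz => ?_⟩
      · intro s t hst Y hY
        have hd : Directed (· ≥ ·) (fun F : c => OrderDual.ofDual F.1) := by
          intro a b
          rcases hchain.total a.2 b.2 with h | h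
          · exact ⟨b, h, le_rfl⟩
          · exact ⟨a, le_rfl, h⟩
        obtain ⟨i, hi⟩ := (mem_iInf_of_directed hd Y).1 hY
        exact hc i.2 s t hst Y hi
      · exact iInf_le (fun F : c => OrderDual.ofDual F.1) ⟨z, hz⟩)
    (OrderDual.toDual F₀) h
  refine ⟨OrderDual.ofDual F, hF, hmax.prop, fun Z hZ => ?_⟩
  have hg : Good G (OrderDual.ofDual F ⊓ 𝓟 Z) := by
    intro s t hst Y hY
    obtain ⟨Y₁, h1, Y₂, h2, rfl⟩ := mem_inf_iff.1 hY
    exact (hZ s t hst Y₁ h1).mono (inter_subset_inter_right _ (inter_subset_inter_right _ h2))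
  have hle : F ≤ OrderDual.toDual (OrderDual.ofDual F ⊓ 𝓟 Z) :=
    (inf_le_left : OrderDual.ofDual F ⊓ 𝓟 Z ≤ OrderDual.ofDual F)
  have h2 : OrderDual.ofDual F ≤ OrderDual.ofDual F ⊓ 𝓟 Z := hmax.le_of_ge hg hle
  exact le_principal_iff.1 (h2.trans inf_le_right)

/-- the condition forces the set -/
def Forces {W : Type} (G : W → Set ℕ) (F : Filter ℕ) (s t : Finset W) (X : Set ℕ) : Prop :=
  ∃ Y ∈ F, cell G s t ∩ Y ⊆ X

theorem Forces.mono {W : Type} {G : W → Set ℕ} {F : Filter ℕ} {s t s' t' : Finset W} {X : Set ℕ}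
    (h : Forces G F s t X) (hs : s ⊆ s') (ht : t ⊆ t') : Forces G F s' t' X := by
  obtain ⟨Y, hY, h⟩ := h
  exact ⟨Y, hY, (inter_subset_inter_left _ (cell_mono G hs ht)).trans h⟩

/-- densely decided by conditions supported in `C` -/
def Dec {W : Type} (G : W → Set ℕ) (F : Filter ℕ) (C : Set W) (X : Set ℕ) : Prop :=
  ∀ s t : Finset W, Disjoint s t → (s : Set W) ⊆ C → (t : Set W) ⊆ C →
    ∃ s' t' : Finset W, Disjoint s' t' ∧ (s' : Set W) ⊆ C ∧ (t' : Set W) ⊆ C ∧ s ⊆ s' ∧ t ⊆ t' ∧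
      (Forces G F s' t' X ∨ Forces G F s' t' Xᶜ)

theorem restrict {W : Type} [DecidableEq W] {C : Set W} {s t : Finset W} (hst : Disjoint s t)
    {P : Finset W → Finset W → Prop}
    (h : ∀ s t : Finset W, Disjoint s t → (s : Set W) ⊆ C → (t : Set W) ⊆ C →
      ∃ s' t' : Finset W, Disjoint s' t' ∧ (s' : Set W) ⊆ C ∧ (t' : Set W) ⊆ C ∧ s ⊆ s' ∧ t ⊆ t' ∧
        P s' t') :
    ∃ s' t' : Finset W, (s' : Set W) ⊆ C ∧ (t' : Set W) ⊆ C ∧ Disjoint (s ∪ s') (t ∪ t') ∧
      P s' t' := by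
  classical
  obtain ⟨s', t', hd, hs', ht', hss, htt, hP⟩ := h (s.filter (· ∈ C)) (t.filter (· ∈ C))
    (Finset.disjoint_filter_filter hst) (fun a ha => (Finset.mem_filter.1 ha).2)
    (fun a ha => (Finset.mem_filter.1 ha).2)
  refine ⟨s', t', hs', ht', ?_, hP⟩
  rw [Finset.disjoint_left]
  intro a ha hb
  rw [Finset.mem_union] at ha hb
  rcases ha with ha | ha <;> rcases hb with hb | hb
  · exact Finset.disjoint_left.1 hst ha hb
  · exact Finset.disjoint_left.1 hd (hss (Finset.mem_filter.2 ⟨ha, ht' hb⟩)) hb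
  · exact Finset.disjoint_left.1 hd ha (htt (Finset.mem_filter.2 ⟨hb, hs' ha⟩))
  · exact Finset.disjoint_left.1 hd ha hb

theorem Dec.mono {W : Type} {G : W → Set ℕ} {F : Filter ℕ} {C D : Set W} {X : Set ℕ}
    (h : Dec G F C X) (hCD : C ⊆ D) : Dec G F D X := by
  classical
  intro s t hst hs ht
  obtain ⟨s', t', hs', ht', hd, hP⟩ := restrict hst h
  refine ⟨s ∪ s', t ∪ t', hd, ?_, ?_, Finset.subset_union_left, Finset.subset_union_left, ?_⟩
  · rw [Finset.coe_union]; exact union_subset hs (hs'.trans hCD)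
  · rw [Finset.coe_union]; exact union_subset ht (ht'.trans hCD)
  · exact hP.imp (fun h => h.mono Finset.subset_union_right Finset.subset_union_right)
      (fun h => h.mono Finset.subset_union_right Finset.subset_union_right)

theorem Dec.inter {W : Type} {G : W → Set ℕ} {F : Filter ℕ} {C : Set W} {X X' : Set ℕ}
    (h : Dec G F C X) (h' : Dec G F C X') : Dec G F C (X ∩ X') := by
  intro s t hst hs ht
  obtain ⟨s1, t1, hd1, hs1, ht1, hss1, htt1, hP1⟩ := h s t hst hs ht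
  obtain ⟨s2, t2, hd2, hs2, ht2, hss2, htt2, hP2⟩ := h' s1 t1 hd1 hs1 ht1
  refine ⟨s2, t2, hd2, hs2, ht2, hss1.trans hss2, htt1.trans htt2, ?_⟩
  rcases hP1 with hP1 | hP1
  · rcases hP2 with ⟨Y2, hY2, h2⟩ | ⟨Y2, hY2, h2⟩
    · obtain ⟨Y1, hY1, h1⟩ := hP1.mono hss2 htt2
      exact Or.inl ⟨Y1 ∩ Y2, inter_mem hY1 hY2, fun n hn =>
        ⟨h1 ⟨hn.1, hn.2.1⟩, h2 ⟨hn.1, hn.2.2⟩⟩⟩
    · exact Or.inr ⟨Y2, hY2, fun n hn hx => h2 hn hx.2⟩
  · obtain ⟨Y1, hY1, h1⟩ := hP1.mono hss2 htt2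
    exact Or.inr ⟨Y1, hY1, fun n hn hx => h1 hn hx.1⟩

section Max

variable {W : Type} {G : W → Set ℕ} {F : Filter ℕ} (hg : Good G F)
  (hmax : ∀ Z, (∀ s t : Finset W, Disjoint s t → ∀ Y ∈ F,
      (cell G s t ∩ (Y ∩ Z)).Nonempty) → Z ∈ F)
include hg hmax

theorem dec_univ (X : Set ℕ) : Dec G F univ X := by
  classical
  intro s t hst _ _
  by_cases h : ∃ s' t' : Finset W, Disjoint s' t' ∧ s ⊆ s' ∧ t ⊆ t' ∧ Forces G F s' t' Xᶜ
  · obtain ⟨s', t', hd, h1, h2, h3⟩ := h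
    exact ⟨s', t', hd, subset_univ _, subset_univ _, h1, h2, Or.inr h3⟩
  · push Not at h
    refine ⟨s, t, hst, subset_univ _, subset_univ _, Finset.Subset.refl _, Finset.Subset.refl _,
      Or.inl ⟨X ∪ (cell G s t)ᶜ, hmax _ fun s' t' hd Y hY => ?_, ?_⟩⟩
    · by_cases hc : Disjoint (s ∪ s') (t ∪ t')
      · have := h _ _ hc Finset.subset_union_left Finset.subset_union_left
        by_contra hne
        apply this
        refine ⟨Y, hY, fun n hn hx => hne ⟨n, ?_, hn.2, Or.inl hx⟩⟩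
        exact cell_mono G Finset.subset_union_right Finset.subset_union_right hn.1
      · obtain ⟨n, hn1, hn2⟩ := hg s' t' hd Y hY
        refine ⟨n, hn1, hn2, Or.inr fun hn3 => hc ?_⟩
        rw [Finset.disjoint_left]
        intro a ha hb
        have h1 : n ∈ G a := by
          rcases Finset.mem_union.1 ha with ha | ha
          · exact hn3.1 a ha
          · exact hn1.1 a ha
        rcases Finset.mem_union.1 hb with hb | hb
        · exact hn3.2 a hb h1
        · exact hn1.2 a hb h1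
    · rintro n ⟨h1, h2 | h2⟩
      · exact h2
      · exact absurd h1 h2

theorem dec_countable (X : Set ℕ) : ∃ C : Set W, C.Countable ∧ Dec G F C X := by
  classical
  have := dec_univ hg hmax X
  choose! s' t' hd _ _ hs ht hP using this
  obtain ⟨C, hC, hcl⟩ := closure_exists
    (fun u : Finset W => ⋃ s ∈ u.powerset, ⋃ t ∈ u.powerset, ((s' s t : Set W) ∪ t' s t))
    (fun u => Finite.countable (Finite.biUnion (Finset.finite_toSet _) fun s _ =>
      Finite.biUnion (Finset.finite_toSet _) fun t _ =>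
        (Finset.finite_toSet _).union (Finset.finite_toSet _)))
  refine ⟨C, hC, fun s t hst hsC htC => ?_⟩
  have h1 := hcl (s ∪ t) (by rw [Finset.coe_union]; exact union_subset hsC htC)
  have h2 : ((s' s t : Set W) ∪ t' s t) ⊆ C := by
    refine Subset.trans ?_ h1
    intro a ha
    simp only [mem_iUnion]
    exact ⟨s, Finset.mem_powerset.2 Finset.subset_union_left, t,
      Finset.mem_powerset.2 Finset.subset_union_right, ha⟩
  exact ⟨s' s t, t' s t, hd s t hst (subset_univ _) (subset_univ _), subset_union_left.trans h2,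
    subset_union_right.trans h2, hs s t hst (subset_univ _) (subset_univ _),
    ht s t hst (subset_univ _) (subset_univ _), hP s t hst (subset_univ _) (subset_univ _)⟩

theorem force_of_dec {C : Set W} {X : Set ℕ} (h : Dec G F C X) (hX : Xᶜ ∉ F) :
    ∃ s t : Finset W, Disjoint s t ∧ (s : Set W) ⊆ C ∧ (t : Set W) ⊆ C ∧ Forces G F s t X := by
  classical
  by_contra hcon
  push Not at hcon
  apply hX
  refine hmax _ fun s t hst Y hY => ?_
  obtain ⟨s', t', hs', ht', hd, hP⟩ := restrict hst h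
  rcases hP with hP | ⟨Y', hY', hP⟩
  · exact absurd hP (hcon s' t'
      (hd.mono Finset.subset_union_right Finset.subset_union_right) hs' ht')
  · obtain ⟨n, hn1, hn2⟩ := hg _ _ hd (Y ∩ Y') (inter_mem hY hY')
    exact ⟨n, cell_mono G Finset.subset_union_left Finset.subset_union_left hn1, hn2.1,
      hP ⟨cell_mono G Finset.subset_union_right Finset.subset_union_right hn1, hn2.2⟩⟩

theorem exists_approx (u : Ultrafilter ℕ) (hu : (u : Filter ℕ) ≤ F) (C : Set W) :
    ∃ v : Ultrafilter ℕ, (v : Filter ℕ) ≤ F ∧ (∀ X ∈ u, Dec G F C X → X ∈ v) ∧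
      ∀ a, a ∉ C → G a ∉ v := by
  classical
  let ι := {p : Set ℕ × Set ℕ × Finset W //
    p.1 ∈ F ∧ (p.2.1 ∈ u ∧ Dec G F C p.2.1) ∧ ∀ a ∈ p.2.2, a ∉ C}
  have hdu : Dec G F C univ := fun s t hst hs ht =>
    ⟨s, t, hst, hs, ht, Finset.Subset.refl _, Finset.Subset.refl _,
      Or.inl ⟨univ, univ_mem, subset_univ _⟩⟩
  let g : ι → Filter ℕ := fun p => 𝓟 (p.1.1 ∩ p.1.2.1 ∩ cell G ∅ p.1.2.2)
  haveI : Nonempty ι := ⟨⟨(univ, univ, ∅), univ_mem, ⟨univ_mem, hdu⟩, by simp⟩⟩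
  have hd : Directed (· ≥ ·) g := by
    intro p q
    refine ⟨⟨(p.1.1 ∩ q.1.1, p.1.2.1 ∩ q.1.2.1, p.1.2.2 ∪ q.1.2.2), inter_mem p.2.1 q.2.1,
      ⟨inter_mem p.2.2.1.1 q.2.2.1.1, p.2.2.1.2.inter q.2.2.1.2⟩, fun a ha => ?_⟩, ?_, ?_⟩
    · rcases Finset.mem_union.1 ha with ha | ha
      · exact p.2.2.2 a ha
      · exact q.2.2.2 a ha
    · exact principal_mono.2 fun n hn => ⟨⟨hn.1.1.1, hn.1.2.1⟩,
        cell_mono G (Finset.Subset.refl _) Finset.subset_union_left hn.2⟩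
    · exact principal_mono.2 fun n hn => ⟨⟨hn.1.1.2, hn.1.2.2⟩,
        cell_mono G (Finset.Subset.refl _) Finset.subset_union_right hn.2⟩
  have hne : ∀ p, (g p).NeBot := by
    rintro ⟨⟨Y, X, w⟩, hY, ⟨hXu, hXd⟩, hw⟩
    have hXc : Xᶜ ∉ F := fun h => (Ultrafilter.compl_mem_iff_notMem.1 (hu h)) hXu
    obtain ⟨s, t, hst, hs, ht, Y', hY', hf⟩ := force_of_dec hg hmax hXd hXc
    have hd : Disjoint s (t ∪ w) := by
      rw [Finset.disjoint_union_right]
      exact ⟨hst, Finset.disjoint_left.2 fun a ha hb => hw a hb (hs ha)⟩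
    obtain ⟨n, hn1, hn2⟩ := hg _ _ hd (Y ∩ Y') (inter_mem hY hY')
    refine principal_neBot_iff.2 ⟨n, ⟨hn2.1, hf ⟨?_, hn2.2⟩⟩, ?_⟩
    · exact cell_mono G (Finset.Subset.refl _) Finset.subset_union_left hn1
    · exact cell_mono G (Finset.empty_subset _) Finset.subset_union_right hn1
  haveI := iInf_neBot_of_directed hd hne
  have hmem : ∀ p : ι, p.1.1 ∩ p.1.2.1 ∩ cell G ∅ p.1.2.2 ∈ Ultrafilter.of (iInf g) := fun p =>
    Ultrafilter.of_le _ (mem_iInf_of_mem p (mem_principal_self _))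
  refine ⟨Ultrafilter.of (iInf g), fun Y hY => ?_, fun X hX hd => ?_, fun a ha => ?_⟩
  · exact mem_of_superset (hmem ⟨(Y, univ, ∅), hY, ⟨univ_mem, hdu⟩, by simp⟩)
      fun n hn => hn.1.1
  · exact mem_of_superset (hmem ⟨(univ, X, ∅), univ_mem, ⟨hX, hd⟩, by simp⟩)
      fun n hn => hn.1.2
  · rw [← Ultrafilter.compl_mem_iff_notMem]
    exact mem_of_superset (hmem ⟨(univ, univ, {a}), univ_mem, ⟨univ_mem, hdu⟩, by simpa⟩)
      fun n hn => hn.2.2 a (Finset.mem_singleton_self a)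

end Max

theorem exists_top {W : Type} {G : W → Set ℕ} {F : Filter ℕ} (hg : Good G F) :
    ∃ u : Ultrafilter ℕ, (u : Filter ℕ) ≤ F ∧ ∀ a, G a ∈ u := by
  classical
  let g : Finset W → Filter ℕ := fun s => F ⊓ 𝓟 (cell G s ∅)
  have hd : Directed (· ≥ ·) g := by
    intro p q
    exact ⟨p ∪ q, inf_le_inf_left _ (principal_mono.2
      (cell_mono G Finset.subset_union_left (Finset.Subset.refl _))),
      inf_le_inf_left _ (principal_mono.2
      (cell_mono G Finset.subset_union_right (Finset.Subset.refl _)))⟩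
  have hne : ∀ p, (g p).NeBot := by
    intro s
    rw [inf_principal_neBot_iff]
    intro Y hY
    rw [inter_comm]
    exact hg s ∅ (Finset.disjoint_empty_right _) Y hY
  haveI := iInf_neBot_of_directed hd hne
  refine ⟨Ultrafilter.of (iInf g), (Ultrafilter.of_le _).trans ((iInf_le g ∅).trans inf_le_left),
    fun a => ?_⟩
  have : (Ultrafilter.of (iInf g) : Filter ℕ) ≤ 𝓟 (cell G {a} ∅) :=
    (Ultrafilter.of_le _).trans ((iInf_le g {a}).trans inf_le_right)
  exact mem_of_superset (le_principal_iff.1 this) fun n hn => hn.1 a (Finset.mem_singleton_self a)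

theorem exists_start {W L : Type} (K : W ⊕ L → Set ℕ)
    (hK : ∀ s t : Finset (W ⊕ L), Disjoint s t → (cell K s t).Infinite) :
    ∃ F₀ : Filter ℕ, Good (fun a => K (Sum.inl a)) F₀ ∧ F₀ ≤ cofinite ∧
      (∀ b, K (Sum.inr b) ∈ F₀) ∧
      ∀ T : Set L, T.Infinite → (⋂ b ∈ T, K (Sum.inr b))ᶜ ∈ F₀ := by
  classical
  let ι := Finset ℕ × Finset L × Finset {T : Set L // T.Infinite}
  let S : ι → Set ℕ := fun p => {n | n ∉ p.1 ∧ (∀ b ∈ p.2.1, n ∈ K (Sum.inr b)) ∧
    ∀ T ∈ p.2.2, ∃ b ∈ T.1, n ∉ K (Sum.inr b)}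
  let g : ι → Filter ℕ := fun p => 𝓟 (S p)
  have hd : Directed (· ≥ ·) g := by
    intro p q
    refine ⟨(p.1 ∪ q.1, p.2.1 ∪ q.2.1, p.2.2 ∪ q.2.2), ?_, ?_⟩
    · exact principal_mono.2 fun n hn => ⟨fun h => hn.1 (Finset.mem_union_left _ h),
        fun b hb => hn.2.1 b (Finset.mem_union_left _ hb),
        fun T hT => hn.2.2 T (Finset.mem_union_left _ hT)⟩
    · exact principal_mono.2 fun n hn => ⟨fun h => hn.1 (Finset.mem_union_right _ h),
        fun b hb => hn.2.1 b (Finset.mem_union_right _ hb),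
        fun T hT => hn.2.2 T (Finset.mem_union_right _ hT)⟩
  haveI : Nonempty ι := ⟨(∅, ∅, ∅)⟩
  have hmem : ∀ p, S p ∈ iInf g := fun p => mem_iInf_of_mem p (mem_principal_self _)
  refine ⟨iInf g, ?_, ?_, ?_, ?_⟩
  · intro s t hst Y hY
    obtain ⟨⟨A, B, 𝒯⟩, hp⟩ := (mem_iInf_of_directed hd Y).1 hY
    have hch : ∀ T : {T : Set L // T.Infinite}, ∃ b ∈ T.1, b ∉ B := fun T =>
      T.2.exists_notMem_finset B
    choose c hc1 hc2 using hch
    have hdis : Disjoint (s.image Sum.inl ∪ B.image Sum.inr : Finset (W ⊕ L))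
        (t.image Sum.inl ∪ (𝒯.image c).image Sum.inr) := by
      rw [Finset.disjoint_left]
      rintro (a | b) ha hb
      · simp only [Finset.mem_union, Finset.mem_image, Sum.inl.injEq, exists_eq_right,
          reduceCtorEq, and_false, exists_false, or_false] at ha hb
        exact Finset.disjoint_left.1 hst ha hb
      · simp only [Finset.mem_union, Finset.mem_image, Sum.inr.injEq, exists_eq_right,
          reduceCtorEq, and_false, exists_false, false_or] at ha hb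
        obtain ⟨T, _, rfl⟩ := hb
        exact hc2 T ha
    obtain ⟨n, hn, hnA⟩ := (hK _ _ hdis).exists_notMem_finset A
    refine ⟨n, ⟨fun a ha => hn.1 _ (by simp [ha]), fun a ha => hn.2 _ (by simp [ha])⟩,
      hp ⟨hnA, fun b hb => hn.1 _ (by simpa using hb), fun T hT => ⟨c T, hc1 T, hn.2 _ ?_⟩⟩⟩
    exact Finset.mem_union_right _ (Finset.mem_image_of_mem _ (Finset.mem_image_of_mem _ hT))
  · intro Y hY
    refine mem_of_superset (hmem ((mem_cofinite.1 hY).toFinset, ∅, ∅)) fun n hn => ?_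
    simpa using hn.1
  · intro b
    exact mem_of_superset (hmem (∅, {b}, ∅)) fun n hn => hn.2.1 b (Finset.mem_singleton_self b)
  · intro T hT
    refine mem_of_superset (hmem (∅, ∅, {⟨T, hT⟩})) fun n hn h => ?_
    obtain ⟨b, hb, hnb⟩ := hn.2.2 ⟨T, hT⟩ (Finset.mem_singleton_self _)
    exact hnb (mem_iInter₂.1 h b hb)

theorem exists_W : ∃ (W : Type) (_ : LinearOrder W), #W = ℵ₁ ∧ (∀ a : W, (Iio a).Countable) := by
  refine ⟨(Cardinal.ord ℵ₁).ToType, inferInstance, by simp, fun a => ?_⟩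
  rw [← Cardinal.le_aleph0_iff_set_countable, ← Cardinal.lt_aleph_one_iff]
  exact Cardinal.mk_Iio_ord_toType a

theorem main : ∃ (W : Type) (u : Ultrafilter ℕ) (v : W → Ultrafilter ℕ) (G : W → Set ℕ),
    #W = ℵ₁ ∧ (u : Filter ℕ) ≤ cofinite ∧ (∀ a, (v a : Filter ℕ) ≤ cofinite) ∧
    (∀ a, G a ∈ u) ∧ (∀ a, G a ∉ v a) ∧
    (∀ X ∈ u, ∃ b, ∀ a, X ∈ v a ∨ G b ∉ v a) ∧
    (∀ 𝒜 : Set (Set ℕ), 𝒜.Countable → (∀ X ∈ 𝒜, X ∈ u) → ∃ a, ∀ X ∈ 𝒜, X ∈ v a) ∧
    (∀ ℬ : Set (Set ℕ), (∀ X ∈ ℬ, X ∈ u) → (∀ X ∈ u, ∃ B ∈ ℬ, B ⊆ X) → 𝔠 ≤ #ℬ) := by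
  classical
  obtain ⟨W, _, hW, hIio⟩ := exists_W
  have hbdd : ∀ C : Set W, C.Countable → ∃ b, C ⊆ Iio b := by
    intro C hC
    by_contra h
    push Not at h
    have : (univ : Set W).Countable := by
      refine (hC.biUnion fun a _ => ((hIio a).insert a)).mono fun b _ => ?_
      obtain ⟨a, ha, hab⟩ := not_subset.1 (h b)
      exact mem_biUnion ha (by
        rcases (not_lt.1 hab).eq_or_lt with h | h
        · exact Or.inl h
        · exact Or.inr h)
    rw [← Cardinal.le_aleph0_iff_set_countable, mk_univ, hW] at this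
    exact absurd this (not_le.2 aleph0_lt_aleph_one)
  obtain ⟨ι⟩ : Nonempty (W ⊕ Set ℕ ↪ Set ℕ) := by
    rw [← Cardinal.le_def]
    simp only [mk_sum, lift_id, hW, mk_set, mk_nat, two_power_aleph0]
    exact (add_eq_right aleph0_le_continuum aleph_one_le_continuum).le
  obtain ⟨K, hK⟩ := indep_exists _ ι ι.injective
  obtain ⟨F₀, hg0, hcof, hH, hT⟩ := exists_start K hK
  set G : W → Set ℕ := fun a => K (Sum.inl a)
  obtain ⟨F, hF, hg, hmax⟩ := exists_minimal G F₀ hg0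
  obtain ⟨u, hu, huG⟩ := exists_top hg
  choose v hv1 hv2 hv3 using fun a : W => exists_approx hg hmax u hu (Iio a)
  have hev : ∀ X ∈ u, ∃ b, ∀ a, b ≤ a → X ∈ v a := by
    intro X hX
    obtain ⟨C, hC, hd⟩ := dec_countable hg hmax X
    obtain ⟨b, hb⟩ := hbdd C hC
    exact ⟨b, fun a hab => hv2 a X hX (hd.mono (hb.trans (Iio_subset_Iio hab)))⟩
  refine ⟨W, u, v, G, hW, hu.trans (hF.trans hcof), fun a => (hv1 a).trans (hF.trans hcof), huG,
    fun a => hv3 a a (lt_irrefl a), fun X hX => ?_, fun 𝒜 h𝒜 hsub => ?_, fun ℬ hB hbase => ?_⟩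
  · obtain ⟨b, hb⟩ := hev X hX
    refine ⟨b, fun a => ?_⟩
    rcases le_total b a with h | h
    · exact Or.inl (hb a h)
    · exact Or.inr (hv3 a b (not_lt.2 h))
  · haveI : Nonempty W := by
      rw [← Cardinal.mk_ne_zero_iff, hW]; exact (aleph_pos 1).ne'
    choose! β hβ using hev
    obtain ⟨b, hb⟩ := hbdd _ (h𝒜.image β)
    exact ⟨b, fun X hX => hβ X (hsub X hX) b (le_of_lt (hb (mem_image_of_mem β hX)))⟩
  · by_contra hlt
    push Not at hlt
    have hch : ∀ b : Set ℕ, ∃ B : ℬ, B.1 ⊆ K (Sum.inr b) := fun b => by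
      obtain ⟨B, hB, h⟩ := hbase _ (hu (hF (hH b)))
      exact ⟨⟨B, hB⟩, h⟩
    choose c hc using hch
    obtain ⟨B, hBinf⟩ := exists_infinite_fiber c (by simpa using hlt)
    have h1 := hu (hF (hT (c ⁻¹' {B}) (infinite_coe_iff.1 hBinf)))
    refine (Ultrafilter.compl_mem_iff_notMem.1 h1) (mem_of_superset (hB B.1 B.2) ?_)
    intro n hn
    refine mem_iInter₂.2 fun b hb => hc b ?_
    rw [show c b = B from hb]
    exact hn

end Pool.Agent.H.MP_f21612_lc
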